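import Pool.Agent.Helper68.SG2.GoalsT

/-!
# Project SG, stage 2 (MP_a41896_nt): QIXT
-/

set_option autoImplicit false

open MvPolynomial

namespace Pool.Agent.Helper26.SG2

open WeierstrassCurve Height
open Pool.Agent.Helper29.BL Pool.Agent.Helper92.Ru Pool.Agent.Helper42.SG Pool.Agent.Helper68.SG2

theorem kapT_ne {K : Type} [Field K] [NumberField K] {T : ℕ → Bool} {W : ℕ → Affine K} {n : ℕ}
    {ξ ψ : ℕ → K} (hP : PtT T W n ξ ψ) {h : ℕ} (hh : h < 2 * n + 2) : kapT T ξ ψ h ≠ 0 := by
  unfold kapT
  split_ifs with ht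
  · exact sub_ne_zero.2 ((hP h hh).1 ht).2.1
  · have h1 := ((hP h hh).2 (by simpa using ht)).2
    exact mul_ne_zero (by norm_num) (pow_ne_zero _ h1)

section

variable {K : Type} [Field K] {σ : Type} [Fintype σ]

theorem coeff_scale (c : σ → K) (p : MvPolynomial σ K) (e : σ →₀ ℕ) :
    coeff e (aeval (fun h => C (c h) * X h : σ → MvPolynomial σ K) p) =
      coeff e p * ∏ h, c h ^ e h := by
  classical
  induction p using MvPolynomial.induction_on' with
  | monomial s a =>
    have h1 : aeval (fun h => C (c h) * X h : σ → MvPolynomial σ K) (monomial s a) =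
        monomial s (a * ∏ h, c h ^ s h) := by
      rw [aeval_monomial, monomial_eq (a := a * ∏ h, c h ^ s h), Finsupp.prod_fintype _ _
        (fun i => pow_zero _), Finsupp.prod_fintype _ _ (fun i => pow_zero _)]
      simp only [mul_pow, Finset.prod_mul_distrib, C_mul, map_prod, map_pow, mul_assoc,
        MvPolynomial.algebraMap_eq]
    rw [h1, coeff_monomial, coeff_monomial]
    by_cases h : s = e
    · subst h
      simp
    · simp [h]
  | add p q hp hq =>
    rw [map_add, coeff_add, coeff_add, hp, hq, add_mul]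

theorem wt_mono (d : σ → ℕ) {a e : σ →₀ ℕ} (h : a ≤ e) : wt d a ≤ wt d e := by
  unfold wt
  apply Finset.sum_le_sum
  intro i _
  have := h i
  gcongr

end

theorem t_QIXT : Pool.Agent.Helper68.SG2.QIXT := by
  classical
  intro K _ _ T W n ξ ψ X Ψ Q f g d θ hT hP hd hQ hf e he
  by_contra hlt
  rw [not_le] at hlt
  rw [mem_support_iff] at he
  apply he
  have hc : ∀ h : Fin (2 * n + 2), kapT T ξ ψ h.val ≠ 0 := fun h => kapT_ne hP h.isLt
  have key : coeff e (aeval (fun h => C (kapT T ξ ψ h.val) * MvPolynomial.X h :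
      Fin (2 * n + 2) → MvPolynomial (Fin (2 * n + 2)) K)
      (shiftP (fun h : Fin (2 * n + 2) => ξ h.val) Q)) = 0 := by
    have h1 : MvPowerSeries.coeff e (f * g) = 0 := by
      rw [MvPowerSeries.coeff_mul]
      apply Finset.sum_eq_zero
      rintro ⟨a, b⟩ hab
      have hab' : a + b = e := by simpa using hab
      have hae : a ≤ e := by rw [← hab']; exact le_self_add
      rw [hf a ((wt_mono d hae).trans_lt hlt), zero_mul]
    have h2 : aeval (fun h : Fin (2 * n + 2) => X h.val) Q =
        ((aeval (fun h => C (kapT T ξ ψ h.val) * MvPolynomial.X h :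
          Fin (2 * n + 2) → MvPolynomial (Fin (2 * n + 2)) K)
          (shiftP (fun h : Fin (2 * n + 2) => ξ h.val) Q) : MvPolynomial (Fin (2 * n + 2)) K) :
          MvPowerSeries (Fin (2 * n + 2)) K) := by
      have h3 : aeval (fun h : Fin (2 * n + 2) => X h.val) =
          ((MvPolynomial.coeToMvPowerSeries.algHom (R := K) (σ := Fin (2 * n + 2)) K).comp
            (aeval (fun h => C (kapT T ξ ψ h.val) * MvPolynomial.X h :
              Fin (2 * n + 2) → MvPolynomial (Fin (2 * n + 2)) K))).comp
            (shiftP (fun h : Fin (2 * n + 2) => ξ h.val)) := by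
        apply MvPolynomial.algHom_ext
        intro h
        simp only [aeval_X, AlgHom.comp_apply, shiftP, hT.eqX h]
        simp [MvPolynomial.coeToMvPowerSeries.algHom_apply, MvPowerSeries.map_id, add_comm]
      rw [h3]
      simp [MvPolynomial.coeToMvPowerSeries.algHom_apply, MvPowerSeries.map_id]
    rw [← MvPolynomial.coeff_coe, ← h2, hQ, h1]
  rw [coeff_scale] at key
  rcases mul_eq_zero.1 key with h | h
  · exact h
  · exfalso
    rw [Finset.prod_eq_zero_iff] at h
    obtain ⟨i, -, hi⟩ := h
    exact pow_ne_zero _ (hc i) hi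

end Pool.Agent.Helper26.SG2
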